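import Pool.Agent.K6.H24.CU.Main

/-!
# Every collapsible complex has a convex union representable subdivision

Full answer (yes) to Q1: every collapsible finite simplicial complex has a subdivision which is the
nerve of a finite family of open convex sets of some `ℝ^d` with convex union.

Proof. (1) *Adding a dominated vertex preserves convex union representability* (module `P_ADD`):
let `X` be the nerve of compact convex sets `K_i` with convex union `K`, `B` a subcomplex of `X`
which is a cone with apex `v`, and `w` a new vertex; then `X ∪ (w * B)` is again such a nerve. The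
new sets live over `K × [0,c] × Σ`, where `Σ` is the simplex spanned by the faces of `B`: the total
set consists of the `(x, s, y)` with `dist(x, K_v) ≤ c - s`, the set of `w` is `{s ≥ c}`, the set of
`v` is `{dist(x, K_v) ≤ ε}`, and the set of any other `i` is `{x ∈ K_i, s ≤ c - ε λ_i(y)}`, where
`λ_i(y)` is the sum of the coordinates of `y` at the faces which do not contain `i`.
(2) *Prisms* (modules `P_VIS`, `P_LOW`, `P_FIL`, `P_STP`, `P_PRI`, `P_CAL`). Let
`Δ = Δ₀ ∪ {τ, σ}`, `σ = τ ∪ {v}`, be an elementary expansion and `S₀` a subdivision of `Δ₀`. The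
projection of `σ` to `τ` along the line from `v` to the barycentre of `τ` maps the part of the
boundary of `σ` which is covered by `Δ₀` homeomorphically to `τ`. For the vertices `u` of `S₀` on
this part (above `τ`), in any order, add the projection `h(u)` as a new vertex with link the star of
`u` in the current upper surface: `h(u)` is dominated by `u`, and the new simplices fill exactly the
part between the two surfaces. In the end `σ` is subdivided. (3) Induction over the expansions,
starting from a vertex; finally the compact sets are thickened to open sets (`P_THK`).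
-/

set_option autoImplicit false

namespace Pool.Agent.Results.MP_bce56d_co.CollapsibleSubdivisions

open Set

/-- A finite abstract simplicial complex with vertices in `V`: a finite set of finite sets (the
faces) which contains the empty face and all subsets of its faces. -/
def IsComplex {V : Type} (X : Finset (Finset V)) : Prop :=
  ∅ ∈ X ∧ ∀ s ∈ X, ∀ t, t ⊆ s → t ∈ X

/-- Collapsible: reducible to a single vertex by elementary collapses, which delete a free face `τ`
(properly contained in exactly one other face `σ`) and `σ`. -/
inductive IsCollapsible {V : Type} [DecidableEq V] : Finset (Finset V) → Prop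
  | vertex (v : V) : IsCollapsible {∅, {v}}
  | collapse (X : Finset (Finset V)) (τ σ : Finset V) (hτ : τ ∈ X) (hσ : σ ∈ X) (h : τ ⊂ σ)
      (hfree : ∀ ρ ∈ X, τ ⊂ ρ → ρ = σ) (hc : IsCollapsible (X \ {τ, σ})) : IsCollapsible X

/-- Convex union representable: the nonempty faces of `X` are the nonempty sets of vertices `s`
with `⋂_{i ∈ s} U_i ≠ ∅`, for convex open subsets `U_i` of some `ℝ^d` with convex union. -/
def ConvexUnionRepresentable {V : Type} (X : Finset (Finset V)) : Prop :=
  ∃ (d : ℕ) (U : V → Set (EuclideanSpace ℝ (Fin d))),
    (∀ i, IsOpen (U i)) ∧ (∀ i, Convex ℝ (U i)) ∧ Convex ℝ (⋃ i, U i) ∧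
    ∀ s : Finset V, s.Nonempty → (s ∈ X ↔ (⋂ i ∈ s, U i).Nonempty)

/-- `p` (on the vertices) is a geometric realization of `X` in the real vector space `E`: the
vertices of each face are affinely independent and any two simplices meet in the simplex of the
common vertices. -/
def IsRealization {V E : Type} [AddCommGroup E] [Module ℝ E] (X : Finset (Finset V))
    (p : V → E) : Prop :=
  (∀ s ∈ X, AffineIndependent ℝ (fun i : {i // i ∈ s} => p i.1)) ∧
  ∀ s ∈ X, ∀ t ∈ X, convexHull ℝ (p '' {i | i ∈ s}) ∩ convexHull ℝ (p '' {i | i ∈ t}) ⊆
    convexHull ℝ (p '' {i | i ∈ s ∧ i ∈ t})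

/-- `Y` is a subdivision of `X`: there are geometric realizations in a common space such that
every simplex of `Y` lies in a simplex of `X` and every simplex of `X` is a union of simplices
of `Y`. -/
def IsSubdivision {V W : Type} (Y : Finset (Finset W)) (X : Finset (Finset V)) : Prop :=
  ∃ (E : Type) (_ : AddCommGroup E) (_ : Module ℝ E) (q : W → E) (p : V → E),
    IsRealization Y q ∧ IsRealization X p ∧
    (∀ t ∈ Y, ∃ s ∈ X, convexHull ℝ (q '' {i | i ∈ t}) ⊆ convexHull ℝ (p '' {i | i ∈ s})) ∧
    ∀ s ∈ X, ∃ T : Finset (Finset W), T ⊆ Y ∧
      convexHull ℝ (p '' {i | i ∈ s}) = ⋃ t ∈ T, convexHull ℝ (q '' {i | i ∈ t})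

theorem collapsible_iff {V : Type} [DecidableEq V] (X : Finset (Finset V))
    (h : IsCollapsible X) : Pool.Agent.K6.H24.CU.Collapsible X := by
  induction h with
  | vertex v => exact .vertex v
  | collapse X τ σ hτ hσ h hfree _ ih => exact .step X τ σ hτ hσ h hfree ih

/-- **Every collapsible complex `X` has a convex union representable subdivision `Y`.** -/
theorem result (V : Type) [Fintype V] [DecidableEq V] (X : Finset (Finset V))
    (hX : IsComplex X) (hc : IsCollapsible X) :
    ∃ (n : ℕ) (Y : Finset (Finset (Fin n))), IsComplex Y ∧ (∀ i, {i} ∈ Y) ∧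
      IsSubdivision Y X ∧ ConvexUnionRepresentable Y := by
  obtain ⟨n, Y, h1, h2, h3, h4⟩ :=
    Pool.Agent.K6.H24.CU.main V X hX (collapsible_iff X hc)
  exact ⟨n, Y, h2, h1, h3, h4⟩

end Pool.Agent.Results.MP_bce56d_co.CollapsibleSubdivisions
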